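import Mathlib

namespace Pool.Agent.Results.MP_cb2a9f_co.Smaller

universe u

variable {S : Type u}

/-- a basis is a maximal member -/
def IsBasisOf (I : Set (Set S)) (B : Set S) : Prop := B ∈ I ∧ ∀ Y ∈ I, B ⊆ Y → Y = B

/-- pre-independence space on `W` -/
def PreIndep (W : Set S) (I : Set (Set S)) : Prop :=
  (∀ X ∈ I, X ⊆ W) ∧ ∅ ∈ I ∧ (∀ X ∈ I, ∀ Y, Y ⊆ X → Y ∈ I) ∧
    ∀ I₁ ∈ I, ∀ I₂ ∈ I, I₁.Finite → I₂.Finite → I₁.ncard < I₂.ncard →
      ∃ e ∈ I₂ \ I₁, insert e I₁ ∈ I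

/-- independence space on `W` -/
def IndepSpace (W : Set S) (I : Set (Set S)) : Prop :=
  PreIndep W I ∧ ∀ Y, (∀ Z, Z ⊆ Y → Z.Finite → Z ∈ I) → Y ∈ I

/-- restriction -/
def restr (I : Set (Set S)) (Z : Set S) : Set (Set S) := {Y | Y ⊆ Z ∧ Y ∈ I}

/-- contraction to `Z` computed with the set `B` -/
def contrBy (I : Set (Set S)) (Z B : Set S) : Set (Set S) := {Y | Y ⊆ Z ∧ Y ∪ B ∈ I}

/-- dual -/
def dual (W : Set S) (I : Set (Set S)) : Set (Set S) :=
  {X | X ⊆ W ∧ ∃ B, IsBasisOf I B ∧ B ⊆ W \ X}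

/-- B-matroid on `W` -/
def BMatroid (W : Set S) (I : Set (Set S)) : Prop :=
  (∀ X ∈ I, X ⊆ W) ∧ ∅ ∈ I ∧ (∀ X ∈ I, ∀ Y, Y ⊆ X → Y ∈ I) ∧
    ∀ X, X ⊆ W →
      (∀ T ∈ I, T ⊆ X → ∃ B, IsBasisOf (restr I X) B ∧ T ⊆ B) ∧
      (∀ B₁ B₂, IsBasisOf (restr I X) B₁ → IsBasisOf (restr I X) B₂ → ∀ x ∈ B₁ \ B₂,
        ∃ y ∈ B₂ \ B₁, IsBasisOf (restr I X) (insert y (B₁ \ {x})))

/-- admissible system -/
def Admissible (D : Set S → Set (Set (Set S))) : Prop :=
  (∀ W, ∀ I ∈ D W, PreIndep W I) ∧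
  (∀ W Z, Z ⊆ W → ∀ I ∈ D W,
    restr I Z ∈ D Z ∧ (∃ B, IsBasisOf (restr I (W \ Z)) B) ∧
    (∀ B B', IsBasisOf (restr I (W \ Z)) B → IsBasisOf (restr I (W \ Z)) B' →
      contrBy I Z B = contrBy I Z B') ∧
    (∀ B, IsBasisOf (restr I (W \ Z)) B → contrBy I Z B ∈ D Z)) ∧
  (∀ W, ∀ I ∈ D W, dual W I ∈ D W ∧ dual W (dual W I) = I)

open Matroid

def ind (M : Matroid S) : Set (Set S) := {X | M.Indep X}

lemma basis_ind (M : Matroid S) (B : Set S) : IsBasisOf (ind M) B ↔ M.IsBase B := by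
  rw [isBase_iff_maximal_indep, maximal_subset_iff]
  exact ⟨fun h => ⟨h.1, fun Y hY hBY => (h.2 Y hY hBY).symm⟩,
    fun h => ⟨h.1, fun Y hY hBY => (h.2 hY hBY).symm⟩⟩

lemma restr_ind (M : Matroid S) (Z : Set S) : restr (ind M) Z = ind (M ↾ Z) := by
  ext Y; simp [restr, ind, and_comm]

lemma basis_restr (M : Matroid S) (X B : Set S) :
    IsBasisOf (restr (ind M) X) B ↔ M.IsBasis' B X := by
  rw [restr_ind, basis_ind, isBase_restrict_iff']

lemma dual_ind (M : Matroid S) : dual M.E (ind M) = ind M✶ := by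
  ext X
  simp only [dual, basis_ind, Set.mem_ofPred_eq]
  rw [and_comm]
  exact coindep_iff_exists'.symm

lemma contr_ind (M : Matroid S) (Z B : Set S) (hZ : Z ⊆ M.E) (hB : M.IsBasis' B (M.E \ Z)) :
    contrBy (ind M) Z B = ind (M ／ (M.E \ Z)) := by
  ext Y
  simp only [contrBy, ind, Set.mem_ofPred_eq, hB.contract_indep_iff]
  constructor
  · rintro ⟨h1, h2⟩
    exact ⟨h2, Set.disjoint_left.2 fun x hx hxY => hx.2 (h1 hxY)⟩
  · rintro ⟨h1, h2⟩
    refine ⟨fun x hx => ?_, h1⟩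
    by_contra hxZ
    exact Set.disjoint_left.1 h2 ⟨h1.subset_ground (Or.inl hx), hxZ⟩ hx

def DD (W : Set S) : Set (Set (Set S)) :=
  {I | ∃ M : Matroid S, M.E = W ∧ (M.Finitary ∨ M✶.Finitary) ∧ I = ind M}

lemma admissible : Admissible (DD (S := S)) := by
  refine ⟨?_, ?_, ?_⟩
  · rintro W I ⟨M, rfl, -, rfl⟩
    refine ⟨fun X hX => Indep.subset_ground hX, M.empty_indep, fun X hX Y hY => Indep.subset hX hY,
      fun I₁ h1 I₂ h2 f1 f2 hlt => ?_⟩
    refine Indep.augment h1 h2 ?_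
    rw [← f1.cast_ncard_eq, ← f2.cast_ncard_eq]
    exact_mod_cast hlt
  · rintro W Z hZ I ⟨M, rfl, hM, rfl⟩
    refine ⟨⟨M ↾ Z, rfl, ?_, restr_ind M Z⟩, ?_, ?_, ?_⟩
    · rcases hM with h | h
      · exact Or.inl inferInstance
      · right
        have : M ↾ Z = M ＼ (M.E \ Z) := by
          rw [delete_eq_restrict, Set.sdiff_sdiff_cancel_left hZ]
        rw [this, dual_delete]
        infer_instance
    · obtain ⟨B, hB⟩ := M.exists_isBasis' (M.E \ Z)
      exact ⟨B, (basis_restr _ _ _).2 hB⟩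
    · intro B B' h1 h2
      rw [contr_ind M Z B hZ ((basis_restr _ _ _).1 h1),
        contr_ind M Z B' hZ ((basis_restr _ _ _).1 h2)]
    · intro B h1
      refine ⟨M ／ (M.E \ Z), by simp [Set.sdiff_sdiff_cancel_left hZ], ?_,
        contr_ind M Z B hZ ((basis_restr _ _ _).1 h1)⟩
      rcases hM with h | h
      · exact Or.inl inferInstance
      · right
        rw [dual_contract]
        infer_instance
  · rintro W I ⟨M, rfl, hM, rfl⟩
    refine ⟨⟨M✶, rfl, by rw [dual_dual]; exact hM.symm, dual_ind M⟩, ?_⟩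
    rw [dual_ind]
    have := dual_ind M✶
    rwa [dual_dual] at this

lemma contains (W : Set S) (I : Set (Set S)) (h : IndepSpace W I) : I ∈ DD W := by
  obtain ⟨⟨h1, h2, h3, h4⟩, h5⟩ := h
  refine ⟨(IndepMatroid.ofFinitaryCardAugment W (fun X => X ∈ I) h2
    (fun X Y hY hXY => h3 Y hY X hXY) (fun X Y hX fX hY fY hlt => ?_) h5 h1).matroid, rfl,
    Or.inl inferInstance, ?_⟩
  · obtain ⟨e, he, he'⟩ := h4 X hX Y hY fX fY hlt
    exact ⟨e, he.1, he.2, he'⟩
  · ext X; simp [ind]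

lemma bmatroid (M : Matroid S) : BMatroid M.E (ind M) := by
  refine ⟨fun X hX => Indep.subset_ground hX, M.empty_indep, fun X hX Y hY => Indep.subset hX hY,
    fun X _ => ⟨fun T hT hTX => ?_, fun B₁ B₂ h1 h2 x hx => ?_⟩⟩
  · obtain ⟨B, hB, hTB⟩ := Indep.subset_isBasis'_of_subset hT hTX
    exact ⟨B, (basis_restr _ _ _).2 hB, hTB⟩
  · rw [restr_ind, basis_ind] at h1 h2
    obtain ⟨y, hy, hy'⟩ := h1.exchange h2 hx
    exact ⟨y, hy, by rw [restr_ind, basis_ind]; exact hy'⟩

/-- rank one uniform matroid -/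
def U1 (A : Set S) : Matroid S := (Matroid.freeOn ({()} : Set Unit)).comapOn A (fun _ => ())

lemma U1_ground (A : Set S) : (U1 A).E = A := rfl

lemma U1_indep (A X : Set S) : (U1 A).Indep X ↔ X.Subsingleton ∧ X ⊆ A := by
  simp only [U1, comapOn_indep_iff, freeOn_indep_iff]
  constructor
  · rintro ⟨-, h2, h3⟩
    exact ⟨fun a ha b hb => h2 ha hb rfl, h3⟩
  · rintro ⟨h2, h3⟩
    exact ⟨fun _ _ => rfl, fun a ha b hb _ => h2 ha hb, h3⟩

lemma U1_base (A : Set S) (a : S) (ha : a ∈ A) : (U1 A).IsBase {a} := by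
  rw [isBase_iff_maximal_indep, maximal_subset_iff]
  refine ⟨(U1_indep _ _).2 ⟨Set.subsingleton_singleton, by simpa using ha⟩, fun Y hY h => ?_⟩
  exact (((U1_indep _ _).1 hY).1.eq_singleton_of_mem (h rfl)).symm

lemma U1_not_base (A : Set S) (a : S) (ha : a ∈ A) : ¬ (U1 A).IsBase ∅ := by
  intro h
  have := h.eq_of_subset_isBase (U1_base A a ha) (Set.empty_subset _)
  exact absurd this.symm (Set.singleton_ne_empty a)

theorem result (S : Type u) [Infinite S] :
    ∃ D : Set S → Set (Set (Set S)), Admissible D ∧ (∀ W I, IndepSpace W I → I ∈ D W) ∧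
      ∃ W I, BMatroid W I ∧ I ∉ D W := by
  refine ⟨DD, admissible, contains, ?_⟩
  let e := Infinite.natEmbedding S
  let A : Set S := Set.range fun n => e (2 * n)
  let C : Set S := Set.range fun n => e (2 * n + 1)
  have hA : A.Infinite := Set.infinite_range_of_injective fun a b h => by
    have := e.injective h; omega
  have hC : C.Infinite := Set.infinite_range_of_injective fun a b h => by
    have := e.injective h; omega
  have hd : Disjoint A C := by
    rw [Set.disjoint_left]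
    rintro _ ⟨a, rfl⟩ ⟨b, hb⟩
    have := e.injective hb; omega
  let M := (U1 A).disjointSum (U1 C)✶ hd
  have hE : M.E = A ∪ C := disjointSum_ground_eq
  refine ⟨M.E, ind M, bmatroid M, ?_⟩
  rintro ⟨N, hNE, hN, hI⟩
  have hNM : N = M := ext_indep hNE fun X _ => (Set.ext_iff.1 hI X).symm
  subst hNM
  obtain ⟨a, ha⟩ := hA.nonempty
  obtain ⟨c, hc⟩ := hC.nonempty
  rcases hN with h | h
  · have : M.Indep C := by
      refine indep_of_forall_finite_subset_indep C fun J hJ fJ => ?_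
      obtain ⟨x, hx, hxJ⟩ := hC.exists_notMem_finite fJ
      refine disjointSum_indep_iff.2 ⟨?_, ?_, hJ.trans Set.subset_union_right⟩
      · rw [U1_ground, (hd.symm.mono_left hJ).inter_eq]; exact empty_indep _
      · refine dual_indep_iff_exists'.2 ⟨Set.inter_subset_right, {x}, U1_base C x hx, ?_⟩
        simp [hxJ]
    obtain ⟨-, B, hB, hBd⟩ := dual_indep_iff_exists'.1 (disjointSum_indep_iff.1 this).2.1
    have h1 : B = ∅ := by
      have h2 : B ⊆ C := hB.subset_ground
      have h3 : Disjoint C B := by simpa [U1_ground] using hBd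
      exact Set.eq_empty_of_forall_notMem fun x hx => Set.disjoint_left.1 h3 (h2 hx) hx
    exact U1_not_base C c hc (h1 ▸ hB)
  · have : M✶.Indep A := by
      refine indep_of_forall_finite_subset_indep A fun J hJ fJ => ?_
      obtain ⟨x, hx, hxJ⟩ := hA.exists_notMem_finite fJ
      refine dual_indep_iff_exists'.2 ⟨hE ▸ hJ.trans Set.subset_union_left,
        insert x (C \ {c}), ?_, ?_⟩
      · refine disjointSum_isBase_iff.2 ⟨?_, ?_, ?_⟩
        · have : insert x (C \ {c}) ∩ (U1 A).E = {x} := by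
            ext y
            simp only [U1_ground, Set.mem_inter_iff, Set.mem_insert_iff, Set.mem_singleton_iff]
            constructor
            · rintro ⟨rfl | h1, h2⟩
              · rfl
              · exact absurd h1.1 (Set.disjoint_left.1 hd h2)
            · rintro rfl; exact ⟨Or.inl rfl, hx⟩
          rw [this]; exact U1_base A x hx
        · have : insert x (C \ {c}) ∩ (U1 C)✶.E = (U1 C).E \ {c} := by
            ext y
            simp only [dual_ground, U1_ground, Set.mem_inter_iff, Set.mem_insert_iff]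
            constructor
            · rintro ⟨rfl | h1, h2⟩
              · exact absurd h2 (Set.disjoint_left.1 hd hx)
              · exact h1
            · intro h1; exact ⟨Or.inr h1, h1.1⟩
          rw [this]; exact (U1_base C c hc).compl_isBase_dual
        · exact Set.insert_subset (Or.inl hx) (Set.sdiff_subset.trans Set.subset_union_right)
      · rw [Set.disjoint_left]
        rintro y hy (rfl | h1)
        · exact hxJ hy
        · exact Set.disjoint_left.1 hd (hJ hy) h1.1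
    obtain ⟨-, B, hB, hBd⟩ := dual_indep_iff_exists'.1 this
    have h1 := (disjointSum_isBase_iff.1 hB).1
    rw [U1_ground, hBd.symm.inter_eq] at h1
    exact U1_not_base A a ha h1

end Pool.Agent.Results.MP_cb2a9f_co.Smaller
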